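import Mathlib
import Pool.Agent.Run7.h745.NA.Stm

/-!
Project NA (helper745), piece ORD.
-/

set_option autoImplicit false

namespace Run7.h896.NA.Ord

open Run7.h745.NA

section

variable {𝒜 : Type} [CStarAlgebra 𝒜] [PartialOrder 𝒜] [StarOrderedRing 𝒜]

theorem smul_one_mono {s t : ℝ} (h : s ≤ t) : s • (1 : 𝒜) ≤ t • (1 : 𝒜) :=
  smul_le_smul_of_nonneg_right h zero_le_one

theorem le_of_norm_le {a : 𝒜} (ha : IsSelfAdjoint a) {t : ℝ} (h : ‖a‖ ≤ t) :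
    a ≤ t • (1 : 𝒜) := by
  have h1 := ha.le_algebraMap_norm_self
  rw [Algebra.algebraMap_eq_smul_one] at h1
  exact h1.trans (smul_one_mono h)

theorem norm_le_of_le {a : 𝒜} (ha : 0 ≤ a) {t : ℝ} (ht : 0 ≤ t) (h : a ≤ t • (1 : 𝒜)) :
    ‖a‖ ≤ t := by
  rw [← Algebra.algebraMap_eq_smul_one] at h
  exact (CStarAlgebra.norm_le_iff_le_algebraMap a ht ha).2 h

theorem sa_conj {e x : 𝒜} (he : 0 ≤ e) (hx : 0 ≤ x) (r : ℝ) :
    IsSelfAdjoint (e * x * e - r • (e * e)) := by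
  have h1 : IsSelfAdjoint e := .of_nonneg he
  have h2 : IsSelfAdjoint x := .of_nonneg hx
  rw [isSelfAdjoint_iff]
  simp [h1.star_eq, h2.star_eq, mul_assoc]

theorem sq_nonneg' {e : 𝒜} (he : 0 ≤ e) : 0 ≤ e * e := by
  have h1 : IsSelfAdjoint e := .of_nonneg he
  have := star_mul_self_nonneg e
  rwa [h1.star_eq] at this

theorem sq_norm {e : 𝒜} (he : 0 ≤ e) (he1 : ‖e‖ = 1) : ‖e * e‖ = 1 := by
  have h1 : IsSelfAdjoint e := .of_nonneg he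
  have := CStarRing.norm_star_mul_self (x := e)
  rw [h1.star_eq, he1, mul_one] at this
  exact this

theorem sq_le_one {e : 𝒜} (he : 0 ≤ e) (he1 : ‖e‖ = 1) : e * e ≤ 1 :=
  (CStarAlgebra.norm_le_one_iff_of_nonneg _ (sq_nonneg' he)).1 (sq_norm he he1).le

/-- not `w ≤ c` -/
theorem exists_kappa {w : 𝒜} {c : ℝ} (h : ¬ w ≤ c • (1 : 𝒜)) : ∃ κ : ℝ, c < κ ∧
    ¬ w ≤ κ • (1 : 𝒜) := by
  by_contra hcon
  push Not at hcon
  refine h ?_
  have h1 : Filter.Tendsto (fun n : ℕ => (c + 1 / ((n : ℝ) + 1)) • (1 : 𝒜)) Filter.atTop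
      (nhds ((c + 0) • (1 : 𝒜))) :=
    (tendsto_const_nhds.add tendsto_one_div_add_atTop_nhds_zero_nat).smul_const _
  rw [add_zero] at h1
  refine ge_of_tendsto h1 (Filter.Eventually.of_forall fun n => hcon _ ?_)
  have : (0 : ℝ) < 1 / ((n : ℝ) + 1) := by positivity
  linarith

end

/-- ORD. -/
theorem t_ORD (hEXC : S_EXC) (hUP : S_UP) (hNLOW : S_NLOW) : S_ORD := by
  intro 𝒜 _ _ _ J hJ X hX hX0 Y hY hY0 c hc hz
  by_contra hnot
  have hw : X - Y ∈ J := by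
    have := hJ.add X hX _ (hJ.smul (-1) Y hY)
    rwa [neg_one_smul, ← sub_eq_add_neg] at this
  have hws : IsSelfAdjoint (X - Y) := (IsSelfAdjoint.of_nonneg hX0).sub (.of_nonneg hY0)
  have hnc : ¬ X - Y ≤ c • (1 : 𝒜) := fun h => hnot (by
    rw [sub_le_iff_le_add, add_comm] at h
    exact h)
  obtain ⟨κ, hcκ, hκ⟩ := exists_kappa hnc
  have hκ0 : 0 ≤ κ := hc.trans hcκ.le
  set δ : ℝ := min 1 ((κ - c) / (4 * (‖Y‖ + 1))) with hδ
  set ε : ℝ := min 1 ((κ - c) / 16) with hε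
  have hκc : 0 < κ - c := sub_pos.2 hcκ
  have hY1 : 0 ≤ ‖Y‖ := norm_nonneg Y
  have hδ0 : 0 < δ := by positivity
  have hε0 : 0 < ε := by positivity
  have hδ1 : δ ≤ 1 := min_le_left _ _
  have hδ2 : δ * (‖Y‖ + 1) ≤ (κ - c) / 4 := by
    have h1 : δ ≤ (κ - c) / (4 * (‖Y‖ + 1)) := min_le_right _ _
    rw [le_div_iff₀ (by positivity)] at h1
    linarith
  have hε1 : ε ≤ 1 := min_le_left _ _
  have hε2 : ε ≤ (κ - c) / 16 := min_le_right _ _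
  obtain ⟨e, heJ, he0, he1, hew, r₁, r₂, r₃, hr₁, hr₂, _, h₁, h₂, _⟩ :=
    hEXC 𝒜 J hJ (X - Y) hw hws κ hκ0 hκ X hX hX0 Y hY hY0 Y hY hY0 ε hε0
  have hee0 := sq_nonneg' he0
  have hee1 := sq_norm he0 he1
  have heel := sq_le_one he0 he1
  -- r₁ - r₂ ≥ κ - 3 ε
  have hr : κ - 3 * ε ≤ r₁ - r₂ := by
    have a1 := le_of_norm_le (sa_conj he0 hX0 r₁) h₁
    have a2 : -(e * Y * e - r₂ • (e * e)) ≤ ε • (1 : 𝒜) :=
      le_of_norm_le (sa_conj he0 hY0 r₂).neg (by rwa [norm_neg])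
    have a3 : κ • (e * e) - ε • (1 : 𝒜) ≤ (r₁ - r₂) • (e * e) + (2 * ε) • (1 : 𝒜) := by
      refine hew.trans ?_
      have a4 := add_le_add a1 a2
      have a5 : e * (X - Y) * e = (e * X * e - r₁ • (e * e) + -(e * Y * e - r₂ • (e * e))) +
          (r₁ - r₂) • (e * e) := by
        rw [mul_sub, sub_mul]
        module
      rw [a5]
      have a6 : (r₁ - r₂) • (e * e) + (2 * ε) • (1 : 𝒜) =
          (ε • (1 : 𝒜) + ε • (1 : 𝒜)) + (r₁ - r₂) • (e * e) := by module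
      rw [a6]
      exact add_le_add_left a4 _
    by_contra hcon
    push Not at hcon
    have ht : 0 < κ - (r₁ - r₂) - 3 * ε := by linarith
    have a7 : (κ - (r₁ - r₂)) • (e * e) ≤ (3 * ε) • (1 : 𝒜) := by
      have a8 := sub_nonneg.2 a3
      rw [← sub_nonneg]
      have a9 : (3 * ε) • (1 : 𝒜) - (κ - (r₁ - r₂)) • (e * e) =
          ((r₁ - r₂) • (e * e) + (2 * ε) • (1 : 𝒜)) - (κ • (e * e) - ε • (1 : 𝒜)) := by module
      rw [a9]
      exact a8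
    have a10 : 0 ≤ (κ - (r₁ - r₂)) • (e * e) := smul_nonneg (by linarith) hee0
    have a11 := norm_le_of_le a10 (by positivity) a7
    rw [norm_smul, hee1, mul_one, Real.norm_eq_abs, abs_of_nonneg (by linarith)] at a11
    linarith
  -- the value of r₂
  have hr2 : r₂ ≤ ‖Y‖ + ε := by
    have b1 : ‖r₂ • (e * e)‖ ≤ ‖e * Y * e‖ + ‖e * Y * e - r₂ • (e * e)‖ := by
      calc ‖r₂ • (e * e)‖ = ‖e * Y * e - (e * Y * e - r₂ • (e * e))‖ := by rw [sub_sub_cancel]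
        _ ≤ _ := norm_sub_le _ _
    rw [norm_smul, hee1, mul_one, Real.norm_eq_abs, abs_of_nonneg hr₂] at b1
    have b2 : ‖e * Y * e‖ ≤ ‖Y‖ := by
      calc ‖e * Y * e‖ ≤ ‖e * Y‖ * ‖e‖ := norm_mul_le _ _
        _ ≤ ‖e‖ * ‖Y‖ * ‖e‖ := by gcongr; exact norm_mul_le _ _
        _ = ‖Y‖ := by rw [he1]; ring
    linarith
  -- the test element
  set N : ℝ := (1 + 1 / δ) * ‖Y‖ with hN
  have hN0 : 0 ≤ N := by positivity
  have hzJ : N • (e * e) ∈ J := hJ.smul _ _ (hJ.mul e heJ e heJ)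
  have hz0 : 0 ≤ N • (e * e) := smul_nonneg hN0 hee0
  have c1 := hNLOW 𝒜 e X he0 he1 hX0 r₁ ε N hr₁ hε0 hN0 h₁
  have c2 := hz _ hzJ hz0
  have c3 := hUP 𝒜 e Y he0 he1.le hY0 r₂ ε δ hr₂ hε0 hδ0 h₂
  have c4 : Y + N • (e * e) ≤ ((1 + δ) * (r₂ + ε) + N) • (1 : 𝒜) := by
    have c5 : Y + N • (e * e) ≤ (((1 + δ) * (r₂ + ε)) • (1 : 𝒜) +
        ((1 + 1 / δ) * ‖Y‖) • (1 - e * e)) + N • (e * e) := add_le_add_left c3 _
    refine c5.trans (le_of_eq ?_)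
    rw [← hN]
    module
  have c6 : ‖Y + N • (e * e)‖ ≤ (1 + δ) * (r₂ + ε) + N :=
    norm_le_of_le (add_nonneg hY0 hz0) (by positivity) c4
  have c7 : κ - c ≤ δ * r₂ + (5 + δ) * ε := by linarith
  have c8 : δ * r₂ ≤ (κ - c) / 4 := by
    have : δ * r₂ ≤ δ * (‖Y‖ + 1) := mul_le_mul_of_nonneg_left (by linarith) hδ0.le
    linarith
  have c9 : (5 + δ) * ε ≤ 6 * ε := mul_le_mul_of_nonneg_right (by linarith) hε0.le
  linarith

end Run7.h896.NA.Ord
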