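import Mathlib
import Pool.Agent.Run7.h745.NA.Stm

/-!
Project NA (helper745), piece UP.
-/

set_option autoImplicit false

namespace Run7.h896.NA

open Run7.h745.NA

section

variable {𝒜 : Type} [CStarAlgebra 𝒜] [PartialOrder 𝒜] [StarOrderedRing 𝒜]

theorem sq_le {e : 𝒜} (he : 0 ≤ e) (he1 : ‖e‖ ≤ 1) : e * e ≤ e ∧ e * e ≤ 1 := by
  have h1 : e ≤ 1 := (CStarAlgebra.norm_le_one_iff_of_nonneg e he).1 he1
  have h3 : e ^ 2 ≤ e ^ 1 := CStarAlgebra.pow_antitone he h1 (by norm_num)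
  rw [pow_one, sq] at h3
  exact ⟨h3, h3.trans h1⟩

theorem smul_one_mono {s t : ℝ} (h : s ≤ t) : s • (1 : 𝒜) ≤ t • (1 : 𝒜) :=
  smul_le_smul_of_nonneg_right h zero_le_one

theorem le_of_norm_le {a : 𝒜} (ha : IsSelfAdjoint a) {t : ℝ} (h : ‖a‖ ≤ t) :
    a ≤ t • (1 : 𝒜) := by
  have h1 := ha.le_algebraMap_norm_self
  rw [Algebra.algebraMap_eq_smul_one] at h1
  exact h1.trans (smul_one_mono h)

theorem sa_conj {e x : 𝒜} (he : 0 ≤ e) (hx : 0 ≤ x) (r : ℝ) :
    IsSelfAdjoint (e * x * e - r • (e * e)) := by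
  have h1 : IsSelfAdjoint e := .of_nonneg he
  have h2 : IsSelfAdjoint x := .of_nonneg hx
  rw [isSelfAdjoint_iff]
  simp [h1.star_eq, h2.star_eq, mul_assoc]

omit [PartialOrder 𝒜] [StarOrderedRing 𝒜] in
theorem exp1 (e f x : 𝒜) (δ : ℝ) : (δ • e - f) * x * (δ • e - f) =
    (δ * δ) • (e * x * e) - δ • (e * x * f) - δ • (f * x * e) + f * x * f := by
  simp only [sub_mul, mul_sub, smul_mul_assoc, mul_smul_comm]
  module

omit [PartialOrder 𝒜] [StarOrderedRing 𝒜] in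
theorem exp2 (A B C F : 𝒜) {δ : ℝ} (hδ : δ ≠ 0) :
    (1 + δ) • A + (1 + 1 / δ) • F - (A + B + C + F) =
      (1 / δ) • ((δ * δ) • A - δ • B - δ • C + F) := by
  match_scalars <;> field_simp <;> ring

theorem split_le {e f x : 𝒜} (he : IsSelfAdjoint e) (hf : IsSelfAdjoint f) (hx : 0 ≤ x)
    (h : e + f = 1) {δ : ℝ} (hδ : 0 < δ) :
    x ≤ (1 + δ) • (e * x * e) + (1 + 1 / δ) • (f * x * f) := by
  have h1 : e * x * e + e * x * f + f * x * e + f * x * f = x := by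
    calc e * x * e + e * x * f + f * x * e + f * x * f = (e + f) * x * (e + f) := by
          noncomm_ring
      _ = x := by rw [h, one_mul, mul_one]
  have hg : IsSelfAdjoint (δ • e - f) := ((IsSelfAdjoint.all δ).smul he).sub hf
  have h2 : 0 ≤ (δ • e - f) * x * (δ • e - f) := by
    have := star_left_conjugate_nonneg hx (δ • e - f)
    rwa [hg.star_eq] at this
  rw [exp1] at h2
  have h3 := exp2 (e * x * e) (e * x * f) (f * x * e) (f * x * f) hδ.ne'
  rw [h1] at h3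
  rw [← sub_nonneg, h3]
  exact smul_nonneg (by positivity) h2

end

/-- UP. -/
theorem t_UP : S_UP := by
  intro 𝒜 _ _ _ e x he he1 hx r ε δ hr hε hδ h
  obtain ⟨hsq, hsq1⟩ := sq_le he he1
  have hes : IsSelfAdjoint e := .of_nonneg he
  have hfs : IsSelfAdjoint (1 - e) := (IsSelfAdjoint.one 𝒜).sub hes
  have h1 := split_le hes hfs hx (add_sub_cancel e 1) hδ
  have h2 : e * x * e ≤ (r + ε) • (1 : 𝒜) := by
    have h3 := le_of_norm_le (sa_conj he hx r) h
    rw [sub_le_iff_le_add] at h3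
    refine h3.trans ?_
    have h4 : r • (e * e) ≤ r • (1 : 𝒜) := smul_le_smul_of_nonneg_left hsq1 hr
    calc ε • (1 : 𝒜) + r • (e * e) ≤ ε • (1 : 𝒜) + r • (1 : 𝒜) := by gcongr
      _ = (r + ε) • (1 : 𝒜) := by rw [← add_smul, add_comm]
  have h3 : (1 - e) * x * (1 - e) ≤ ‖x‖ • (1 - e * e) := by
    have h4 : (1 - e) * x * (1 - e) ≤ ‖x‖ • ((1 - e) * (1 - e)) := by
      have := CStarAlgebra.star_left_conjugate_le_norm_smul (a := 1 - e) (b := x) (.of_nonneg hx)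
      rwa [hfs.star_eq] at this
    refine h4.trans (smul_le_smul_of_nonneg_left ?_ (norm_nonneg x))
    have h5 : (1 - e) * (1 - e) = 1 - e * e - ((e - e * e) + (e - e * e)) := by
      noncomm_ring
    rw [h5]
    have h6 : 0 ≤ e - e * e := sub_nonneg.2 hsq
    exact sub_le_self _ (add_nonneg h6 h6)
  refine h1.trans ?_
  have h4 : (1 + δ) • (e * x * e) ≤ ((1 + δ) * (r + ε)) • (1 : 𝒜) := by
    rw [mul_smul]
    exact smul_le_smul_of_nonneg_left h2 (by positivity)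
  have h5 : (1 + 1 / δ) • ((1 - e) * x * (1 - e)) ≤ ((1 + 1 / δ) * ‖x‖) • (1 - e * e) := by
    rw [mul_smul]
    exact smul_le_smul_of_nonneg_left h3 (by positivity)
  exact add_le_add h4 h5

end Run7.h896.NA
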